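import Pool.Agent.helper78.HFN.Spec

/-!
# Project HFN (MP_3221a1_ag), row `hfn:ODM`: the order of a product
-/

set_option autoImplicit false

open Polynomial Module

namespace Pool.Agent.HFN

noncomputable section

theorem ODM_ev (f g : AA) (z : ℂ × ℂ) : ev z (f * g) = ev z f * ev z g := ev_mul _ _ _

theorem ODM_dx (f g : AA) (z : ℂ × ℂ) : ev z (Dx (f * g)) = ev z (Dx f) * ev z g + ev z f * ev z (Dx g) := by
  rw [Dx_mul, ev_add, ev_mul, ev_mul]

theorem ODM_dy (f g : AA) (z : ℂ × ℂ) : ev z (Dy (f * g)) = ev z (Dy f) * ev z g + ev z f * ev z (Dy g) := by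
  rw [Dy_mul, ev_add, ev_mul, ev_mul]

theorem ODM_left {f g : AA} {z : ℂ × ℂ} (hf : ev z f ≠ 0) (hg : ev z g = 0) : Db z (f * g) ↔ Db z g := by
  unfold Db
  rw [ODM_ev, ODM_dx, ODM_dy, hg, mul_zero, mul_zero, mul_zero, zero_add, zero_add]
  constructor
  · rintro ⟨-, h1, h2⟩
    exact ⟨rfl, (mul_eq_zero.1 h1).resolve_left hf, (mul_eq_zero.1 h2).resolve_left hf⟩
  · rintro ⟨-, h1, h2⟩
    exact ⟨rfl, by rw [h1, mul_zero], by rw [h2, mul_zero]⟩

theorem ODM_one {f g : AA} {z : ℂ × ℂ} (hf : ev z f ≠ 0) : od (f * g) z = od g z := by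
  by_cases hg : ev z g = 0
  · have h0 : ev z (f * g) = 0 := by rw [ODM_ev, hg, mul_zero]
    unfold od
    by_cases hD : Db z g
    · rw [if_pos hD, if_pos ((ODM_left hf hg).2 hD)]
    · rw [if_neg hD, if_neg (fun h => hD ((ODM_left hf hg).1 h)), if_pos hg, if_pos h0]
  · have h0 : ev z (f * g) ≠ 0 := by rw [ODM_ev]; exact mul_ne_zero hf hg
    unfold od
    rw [if_neg (fun h : Db z g => hg h.1), if_neg (fun h : Db z (f * g) => h0 h.1), if_neg hg, if_neg h0]

theorem ODM_zero {f : AA} {z : ℂ × ℂ} (hf : ev z f ≠ 0) : od f z = 0 := by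
  unfold od
  rw [if_neg (fun h : Db z f => hf h.1), if_neg hf]

theorem ODM_le (f : AA) (z : ℂ × ℂ) : od f z ≤ 2 := by
  unfold od
  split_ifs <;> omega

theorem ODM_pos {f : AA} {z : ℂ × ℂ} (hf : ev z f = 0) : 1 ≤ od f z := by
  unfold od
  rw [if_pos hf]
  split_ifs <;> omega

theorem ODM : ODM_stmt := by
  intro f g z
  by_cases hf : ev z f = 0
  · by_cases hg : ev z g = 0
    · have hD : Db z (f * g) := by
        unfold Db
        rw [ODM_ev, ODM_dx, ODM_dy, hf, hg]
        simp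
      have h2 : od (f * g) z = 2 := by
        unfold od
        rw [if_pos hD]
      have h3 := ODM_pos hf
      have h4 := ODM_pos hg
      rw [h2]
      omega
    · rw [mul_comm f g, ODM_one hg, ODM_zero hg]
      have h5 := ODM_le f z
      omega
  · rw [ODM_one hf, ODM_zero hf]
    have h5 := ODM_le g z
    omega

end

end Pool.Agent.HFN
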